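import Mathlib

namespace Pool.Agent.Results.MP_993e82_nt.All

/-- The norm form, as a polynomial expression over any commutative ring. -/
def T {R : Type} [CommRing R] (x y z : R) : R :=
  x ^ 3 - 3 * x * y ^ 2 - 3 * x * z ^ 2 + 3 * x * y * z - y ^ 3 + 6 * y ^ 2 * z - 3 * y * z ^ 2 - z ^ 3

/-- Condition (*). -/
def Sol (f h : ℤ → ℂ) : Prop := ∀ x y z : ℤ, h (T x y z) = T (f x) (f y) (f z)

lemma main (f h : ℤ → ℂ) (H : Sol f h) (x1 x2 : ℤ) (hne : f x1 ≠ f x2) : ∀ n, f n = f 1 * n := by
  have gal : ∀ x y z : ℤ, T (f x) (f y) (f z) = T (f x) (f (-z)) (f (y - z)) := fun x y z => by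
    rw [← H, ← H]; congr 1; unfold T; ring
  have hd : f x1 - f x2 ≠ 0 := sub_ne_zero.2 hne
  have Q : ∀ y z : ℤ, f y ^ 2 - f y * f z + f z ^ 2
      = f (-z) ^ 2 - f (-z) * f (y - z) + f (y - z) ^ 2 := fun y z => by
    have a := gal x1 y z
    have b := gal x2 y z
    unfold T at a b
    apply mul_left_cancel₀ hd
    linear_combination (b - a) / 3
  have C : ∀ y z : ℤ, -f y ^ 3 + 6 * f y ^ 2 * f z - 3 * f y * f z ^ 2 - f z ^ 3
      = -f (-z) ^ 3 + 6 * f (-z) ^ 2 * f (y - z) - 3 * f (-z) * f (y - z) ^ 2 - f (y - z) ^ 3 :=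
    fun y z => by
    have a := gal x1 y z
    unfold T at a
    linear_combination a + 3 * f x1 * Q y z
  have h0 : f 0 = 0 := by
    by_contra ha
    have two : ∀ y, f y * (f y - f 0) = 0 := fun y => by
      have c := C y 0
      simp only [neg_zero, sub_zero] at c
      apply mul_left_cancel₀ ha
      linear_combination c / 9
    have cst : ∀ y, f y = f 0 := fun y => by
      have q := Q y y
      simp only [sub_self] at q
      have t := two y
      have t' := two (-y)
      apply mul_left_cancel₀ ha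
      linear_combination q - t + t'
    exact hne (by rw [cst x1, cst x2])
  have odd : ∀ y, f (-y) = -f y := fun y => by
    have q := Q y y
    have c := C y y
    simp only [sub_self, h0] at q c
    have e : (f (-y) + f y) ^ 3 = 0 := by
      linear_combination 4 * c - 3 * (f y - f (-y)) * q
    linear_combination pow_eq_zero_iff (by norm_num) |>.1 e
  have alt : ∀ y z : ℤ, f (y - z) = f y - f z ∨ f (y - z) = -f y := fun y z => by
    have q := Q y z
    rw [odd] at q
    have e : (f (y - z) - (f y - f z)) * (f (y - z) + f y) = 0 := by linear_combination -q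
    rcases mul_eq_zero.1 e with e | e
    · left; linear_combination e
    · right; linear_combination e
  have add : ∀ p q : ℤ, f (p + q) = f p + f q ∨ (f p = f q ∧ f (p + q) = -f p) := fun p q => by
    have a := alt p (-q)
    have b := alt q (-p)
    rw [sub_neg_eq_add, odd] at a b
    rw [add_comm q p] at b
    rcases a with a | a
    · left; linear_combination a
    rcases b with b | b
    · left; linear_combination b
    · right; exact ⟨by linear_combination a - b, a⟩
  have h2 : f 2 = 2 * f 1 := by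
    rcases add 1 1 with a | ⟨-, a⟩
    · norm_num at a; linear_combination a
    · norm_num at a
      have u : T (f (-2)) (f 1) (f (-1)) = T (f 1) (f 0) (f 0) := by
        rw [← H, ← H]; congr 1
      rw [odd, odd, a, h0] at u
      unfold T at u
      have e : f 1 ^ 3 = 0 := by linear_combination -u / 18
      have e1 : f 1 = 0 := pow_eq_zero_iff (by norm_num) |>.1 e
      rw [a, e1]; ring
  have nat : ∀ n : ℕ, f (n + 2) = f 1 * (n + 2) := fun n => by
    induction n with
    | zero => simp [h2, mul_comm]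
    | succ n ih =>
      have e : ((n + 1 : ℕ) : ℤ) + 2 = (n + 2) + 1 := by push_cast; ring
      rw [e]
      rcases add (n + 2) 1 with a | ⟨a, b⟩
      · rw [a, ih]; push_cast; ring
      · have hn : ((n : ℂ) + 1) ≠ 0 := by exact_mod_cast Nat.succ_ne_zero n
        have e1 : f 1 = 0 := by
          apply mul_left_cancel₀ hn
          linear_combination a - ih
        rw [b, a, e1]; ring
  have pos : ∀ n : ℕ, f n = f 1 * n := fun n => by
    match n with
    | 0 => simp [h0]
    | 1 => simp
    | n + 2 => simpa using nat n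
  intro n
  obtain ⟨m, rfl | rfl⟩ := Int.eq_nat_or_neg n
  · simpa using pos m
  · rw [odd, pos]; push_cast; ring

theorem result (f h : ℤ → ℂ) : Sol f h ↔ ∃ l : ℂ,
    ((∀ n : ℤ, f n = l * n) ∧ ∀ x y z : ℤ, h (T x y z) = l ^ 3 * (T x y z : ℤ)) ∨
    ((∀ n : ℤ, f n = l) ∧ ∀ x y z : ℤ, h (T x y z) = -l ^ 3) := by
  constructor
  · intro H
    by_cases hc : ∀ n, f n = f 1
    · refine ⟨f 1, Or.inr ⟨hc, fun x y z => ?_⟩⟩
      rw [H, hc x, hc y, hc z]; unfold T; ring
    · obtain ⟨n, hn⟩ := not_forall.1 hc
      have hf := main f h H n 1 hn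
      refine ⟨f 1, Or.inl ⟨hf, fun x y z => ?_⟩⟩
      rw [H, hf x, hf y, hf z]; unfold T; push_cast; ring
  · rintro ⟨l, ⟨hf, hh⟩ | ⟨hf, hh⟩⟩ x y z
    · rw [hh, hf x, hf y, hf z]; unfold T; push_cast; ring
    · rw [hh, hf x, hf y, hf z]; unfold T; ring

end Pool.Agent.Results.MP_993e82_nt.All
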